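import Mathlib

namespace Pool.Agent.H.MP_f46ce3_an

open Equiv Equiv.Perm Function

set_option maxHeartbeats 400000

variable {L : Type*} [Fintype L] [DecidableEq L]

omit [Fintype L] [DecidableEq L] in
theorem conj (τ ν : Perm L) (hτ : τ * τ = 1) (hν : ν * ν = 1) (k : ℤ) :
    ν * (τ * ν) ^ k = (τ * ν) ^ (-k) * ν := by
  have h : SemiconjBy ν (τ * ν) (τ * ν)⁻¹ := by
    have e1 : τ⁻¹ = τ := inv_eq_of_mul_eq_one_right hτ
    have e2 : ν⁻¹ = ν := inv_eq_of_mul_eq_one_right hν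
    rw [SemiconjBy, mul_inv_rev, e1, e2, mul_assoc]
  have := (h.zpow_right k).eq
  rwa [inv_zpow'] at this

omit [Fintype L] [DecidableEq L] in
theorem cyc_closed (τ ν : Perm L) (hτ : τ * τ = 1) (hν : ν * ν = 1) {x : L} (hx : ν x = x) (k : ℤ) :
    ν (((τ * ν) ^ k) x) = ((τ * ν) ^ (-k)) x ∧ τ (((τ * ν) ^ k) x) = ((τ * ν) ^ (1 - k)) x := by
  have h1 : ν (((τ * ν) ^ k) x) = ((τ * ν) ^ (-k)) x := by
    rw [← mul_apply, conj τ ν hτ hν, mul_apply, hx]
  refine ⟨h1, ?_⟩
  rw [sub_eq_add_neg, zpow_add, zpow_one, mul_apply, ← h1, mul_apply, ← mul_apply ν ν, hν,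
    one_apply]

omit [DecidableEq L] in
theorem dih (τ ν : Perm L) (hτ : τ * τ = 1) (hν : ν * ν = 1) {x : L} (hx : ν x = x) :
    (∃ y, y ≠ x ∧ SameCycle (τ * ν) x y ∧ ν y = y ∧
      (∀ z, SameCycle (τ * ν) x z → ν z = z → z = x ∨ z = y) ∧
      ∀ z, SameCycle (τ * ν) x z → τ z ≠ z) ∨
    ((∀ z, SameCycle (τ * ν) x z → ν z = z → z = x) ∧ ∃ s, SameCycle (τ * ν) x s ∧ τ s = s) := by
  set n := MulAction.period (τ * ν) x with hn
  have hn0 : 0 < n := MulAction.period_pos_of_orderOf_pos (orderOf_pos _) x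
  have key : ∀ j k : ℤ, ((τ * ν) ^ j) x = ((τ * ν) ^ k) x ↔ (n : ℤ) ∣ j - k := by
    intro j k
    rw [← MulAction.zpow_smul_eq_iff_period_dvd, Equiv.Perm.smul_def, sub_eq_neg_add, zpow_add, mul_apply,
      zpow_neg, Equiv.Perm.inv_eq_iff_eq]
  have h0 : ((τ * ν) ^ (0:ℤ)) x = x := by simp
  rcases Nat.even_or_odd' n with ⟨h, hh | hh⟩
  · left
    refine ⟨((τ * ν) ^ (h : ℤ)) x, ?_, ⟨h, rfl⟩, ?_, ?_, ?_⟩
    · intro e
      have e := (key _ 0).1 (e.trans h0.symm)
      have := Int.le_of_dvd (by omega) e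
      omega
    · rw [(cyc_closed τ ν hτ hν hx _).1, key]
      exact ⟨-1, by omega⟩
    · rintro _ ⟨k, rfl⟩ e
      rw [(cyc_closed τ ν hτ hν hx _).1, key] at e
      obtain ⟨c, hc⟩ := e
      have hk : k = -(h * c) := by rw [hh] at hc; push_cast at hc; linarith
      rcases Int.even_or_odd' c with ⟨d, hd | hd⟩
      · left
        conv_rhs => rw [← h0]
        rw [key]
        exact ⟨-d, by rw [hk, hd, hh]; push_cast; ring⟩
      · right
        rw [key]
        exact ⟨-d - 1, by rw [hk, hd, hh]; push_cast; ring⟩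
    · rintro _ ⟨k, rfl⟩ e
      rw [(cyc_closed τ ν hτ hν hx _).2, key] at e
      obtain ⟨c, hc⟩ := e
      rw [hh] at hc; push_cast at hc
      have : 1 = 2 * (k + h * c) := by linarith
      omega
  · right
    refine ⟨?_, ((τ * ν) ^ (h + 1 : ℤ)) x, ⟨h + 1, rfl⟩, ?_⟩
    · rintro _ ⟨k, rfl⟩ e
      rw [(cyc_closed τ ν hτ hν hx _).1, key] at e
      obtain ⟨c, hc⟩ := e
      conv_rhs => rw [← h0]
      rw [key]
      refine ⟨k + h * c, ?_⟩
      rw [hh] at hc ⊢; push_cast at hc ⊢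
      linear_combination (h : ℤ) * hc
    · rw [(cyc_closed τ ν hτ hν hx _).2, key]
      exact ⟨-1, by omega⟩

omit [DecidableEq L] in
theorem exch {τ ν : L → L} (hτ : Involutive τ) (hν : Involutive ν) {u v : L} (huv : u ≠ v)
    (hfix : ∀ l, τ l = l ↔ l = u ∨ l = v) (hv : ν v = v) :
    ∃ s, s ≠ v ∧ ν s = s ∧ ∀ x, ν x = x → x ≠ v → x ≠ s → ∃ (O : L → Prop) (y : L),
      y ≠ x ∧ O x ∧ O y ∧ ν y = y ∧ (∀ z, O (τ z) ↔ O z) ∧ (∀ z, O (ν z) ↔ O z) ∧ ¬ O u ∧ ¬ O v ∧
        ∀ z, O z → ν z = z → z = x ∨ z = y := by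
  set t : Perm L := hτ.toPerm τ with ht
  set n : Perm L := hν.toPerm ν with hn
  have t2 : t * t = 1 := by ext l; exact hτ l
  have n2 : n * n = 1 := by ext l; exact hν l
  have hinv : (n * t) = (t * n)⁻¹ := by
    rw [mul_inv_rev, inv_eq_of_mul_eq_one_right t2, inv_eq_of_mul_eq_one_right n2]
  have tv : t v = v := (hfix v).2 (Or.inr rfl)
  have tu : t u = u := (hfix u).2 (Or.inl rfl)
  have hvv : ∀ z, SameCycle (t * n) z v → z = v := by
    intro z hz
    exact (hz.symm.eq_of_left (show t (n v) = v by rw [show n v = v from hv, tv])).symm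
  obtain ⟨s, hs1, hs2⟩ : ∃ s, SameCycle (t * n) u s ∧ n s = s := by
    rcases dih n t n2 t2 tu with ⟨y, h1, h2, h3, -⟩ | ⟨-, h⟩
    · rw [hinv, sameCycle_inv] at h2
      rcases (hfix y).1 h3 with rfl | rfl
      · exact absurd rfl h1
      · exact absurd (hvv _ h2) huv
    · simpa only [hinv, sameCycle_inv] using h
  refine ⟨s, fun h => huv (hvv u (h ▸ hs1)), hs2, fun x hx hxv hxs => ?_⟩
  have hcl : ∀ z, SameCycle (t * n) x z → SameCycle (t * n) x (t z) ∧ SameCycle (t * n) x (n z) := by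
    rintro _ ⟨k, rfl⟩
    exact ⟨⟨_, (cyc_closed t n t2 n2 hx k).2.symm⟩, ⟨_, (cyc_closed t n t2 n2 hx k).1.symm⟩⟩
  have h1 : ¬ SameCycle (t * n) x v := fun h => hxv (hvv x h)
  rcases dih t n t2 n2 hx with ⟨y, a1, a2, a3, a4, a5⟩ | ⟨a1, w, a2, a3⟩
  · refine ⟨SameCycle (t * n) x, y, a1, SameCycle.refl _ _, a2, a3, fun z => ⟨fun h => ?_,
      fun h => (hcl z h).1⟩, fun z => ⟨fun h => ?_, fun h => (hcl z h).2⟩, fun h => a5 u h tu, h1, a4⟩
    · have := (hcl _ h).1
      rwa [show t (τ z) = z from hτ z] at this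
    · have := (hcl _ h).2
      rwa [show n (ν z) = z from hν z] at this
  · rcases (hfix w).1 a3 with rfl | rfl
    · exact absurd (a1 s (a2.trans hs1) hs2).symm hxs
    · exact absurd a2 h1

omit [DecidableEq L] in
theorem colour {a σ : L → L} (ha : Involutive a) (hσ : Involutive σ) (ha' : ∀ l, a l ≠ l)
    (hσ' : ∀ l, σ l ≠ l) : ∃ s : L → ℝ, ∀ l, |s l| = 1 ∧ s (a l) = -s l ∧ s (σ l) = -s l := by
  classical
  set t : Perm L := ha.toPerm a with ht
  set n : Perm L := hσ.toPerm σ with hn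
  have t2 : t * t = 1 := by ext l; exact ha l
  have n2 : n * n = 1 := by ext l; exact hσ l
  have h1 : ∀ l, ¬ SameCycle (t * n) l (n l) := by
    rintro l ⟨k, hk⟩
    have e : ∀ j : ℤ, n (((t * n) ^ j) l) = ((t * n) ^ (k - j)) l := by
      intro j
      rw [← mul_apply, conj t n t2 n2, mul_apply, ← hk, ← mul_apply, ← zpow_add, neg_add_eq_sub]
    rcases Int.even_or_odd' k with ⟨j, hj | hj⟩
    · refine hσ' (((t * n) ^ j) l) ((e j).trans ?_)
      rw [show k - j = j by omega]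
    · refine ha' (((t * n) ^ (j + 1)) l) ?_
      have e2 := e (j + 1)
      rw [show k - (j + 1) = j by omega] at e2
      have e3 : ((t * n) ^ (j + 1)) l = t (n (((t * n) ^ j) l)) := by
        rw [add_comm, zpow_add, zpow_one, mul_apply, mul_apply]
      have e4 := e j
      rw [show k - j = j + 1 by omega] at e4
      rw [e4] at e3
      exact e3.symm
  let q : L → Quotient (SameCycle.setoid (t * n)) := Quotient.mk _
  let r := Fintype.equivFin (Quotient (SameCycle.setoid (t * n)))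
  have q1 : ∀ l, q (σ l) = q (a l) := fun l =>
    Quotient.sound ⟨1, by rw [zpow_one]; exact congrArg a (hσ l)⟩
  have q2 : ∀ l, r (q l) ≠ r (q (σ l)) := fun l h => h1 l (Quotient.exact (r.injective h))
  have key : ∀ l l', q (σ l') = q l → q l' = q (σ l) →
      (if r (q l') < r (q (σ l')) then (1:ℝ) else -1) =
        -(if r (q l) < r (q (σ l)) then (1:ℝ) else -1) := by
    intro l l' e1 e2
    rw [e1, e2]
    rcases lt_or_gt_of_ne (q2 l) with h | h
    · simp [h, h.not_gt]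
    · simp [h, h.not_gt]
  refine ⟨fun l => if r (q l) < r (q (σ l)) then 1 else -1, fun l => ⟨?_, ?_, ?_⟩⟩
  · simp only
    split_ifs <;> simp
  · exact key l (a l) (by rw [q1, ha]) (q1 l).symm
  · exact key l (σ l) (by rw [hσ]) rfl

def C (D : L → L → ℝ) (σ : L → L) : ℝ := ∑ l, D l (σ l)

def ad (σ : L → L) (x y : L) : L → L := fun l => if l = x then y else if l = y then x else σ l

def rm (σ : L → L) (x : L) : L → L := fun l => if l = x ∨ l = σ x then l else σ l

omit [Fintype L] in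
theorem ad_inv {σ : L → L} (h : Involutive σ) {x y : L} (hx : σ x = x) (hy : σ y = y) :
    Involutive (ad σ x y) := by
  intro l
  have h1 := h l
  unfold ad
  grind

omit [Fintype L] in
theorem ad_fix {σ : L → L} {x y : L} (hxy : x ≠ y) (l : L) :
    ad σ x y l = l ↔ σ l = l ∧ l ≠ x ∧ l ≠ y := by
  unfold ad
  grind

omit [DecidableEq L] in
theorem C_diff (D : L → L → ℝ) {σ σ' : L → L} {x y : L} (hxy : x ≠ y)
    (h : ∀ l, l ≠ x → l ≠ y → σ l = σ' l) :
    C D σ - C D σ' = D x (σ x) - D x (σ' x) + (D y (σ y) - D y (σ' y)) := by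
  unfold C
  rw [← Finset.sum_sub_distrib]
  exact Fintype.sum_eq_add x y hxy fun l hl => by rw [h l hl.1 hl.2, sub_self]

theorem C_ad {D : L → L → ℝ} (h0 : ∀ l, D l l = 0) (hs : ∀ l k, D l k = D k l) {σ : L → L}
    {x y : L} (hxy : x ≠ y) (hx : σ x = x) (hy : σ y = y) :
    C D (ad σ x y) = C D σ + 2 * D x y := by
  have := C_diff D (σ := ad σ x y) (σ' := σ) hxy fun l h1 h2 => by simp [ad, h1, h2]
  have e1 : ad σ x y x = y := by simp [ad]
  have e2 : ad σ x y y = x := by simp [ad, hxy.symm]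
  rw [e1, e2, hx, hy, h0, h0, hs y x] at this
  linarith

omit [Fintype L] in
theorem rm_inv {σ : L → L} (h : Involutive σ) (x : L) : Involutive (rm σ x) := by
  intro l
  have h1 := h l
  have h2 := h x
  unfold rm
  grind

omit [Fintype L] in
theorem rm_fix {σ : L → L} (x l : L) : rm σ x l = l ↔ σ l = l ∨ l = x ∨ l = σ x := by
  unfold rm
  grind

theorem C_rm {D : L → L → ℝ} (h0 : ∀ l, D l l = 0) (hs : ∀ l k, D l k = D k l) {σ : L → L}
    (h : Involutive σ) {x : L} (hx : σ x ≠ x) : C D (rm σ x) = C D σ - 2 * D x (σ x) := by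
  have := C_diff D (σ := rm σ x) (σ' := σ) hx.symm fun l h1 h2 => by simp [rm, h1, h2]
  have e1 : rm σ x x = x := by simp [rm]
  have e2 : rm σ x (σ x) = σ x := by simp [rm]
  rw [e1, e2, h x, h0, h0, hs (σ x) x] at this
  linarith

theorem best {D : L → L → ℝ} (h0 : ∀ l, D l l = 0) (hs : ∀ l k, D l k = D k l)
    (hn : ∀ l k, 0 ≤ D l k) {a : L → L} (ha : Involutive a) (ha' : ∀ l, a l ≠ l)
    (hmin : ∀ σ, Involutive σ → (∀ l, σ l ≠ l) → C D a ≤ C D σ) (hpos : ∃ l, 0 < D l (a l)) :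
    ∃ (τ : L → L) (u v : L), Involutive τ ∧ u ≠ v ∧ (∀ l, τ l = l ↔ l = u ∨ l = v) ∧
      0 < D v (a v) ∧ ∀ (τ' : L → L) (u' v' : L), Involutive τ' → u' ≠ v' →
        (∀ l, τ' l = l ↔ l = u' ∨ l = v') → C D τ ≤ C D τ' := by
  classical
  obtain ⟨l0, hl0⟩ := hpos
  let T : Set ((L → L) × L × L) :=
    {p | Involutive p.1 ∧ p.2.1 ≠ p.2.2 ∧ ∀ l, p.1 l = l ↔ l = p.2.1 ∨ l = p.2.2}
  have hT0 : (rm a l0, l0, a l0) ∈ T :=
    ⟨rm_inv ha l0, (ha' l0).symm, fun l => by simp [rm_fix, ha']⟩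
  obtain ⟨p0, hp0, hp0'⟩ := Set.exists_min_image T (fun p => C D p.1) (Set.toFinite _) ⟨_, hT0⟩
  obtain ⟨⟨τ, u, v⟩, ⟨⟨h1, h2, h3⟩, h4⟩, h5⟩ := Set.exists_min_image
    {p | p ∈ T ∧ C D p.1 ≤ C D p0.1}
    (fun p => (Finset.univ.filter fun l => p.1 l ≠ a l).card) (Set.toFinite _) ⟨p0, hp0, le_rfl⟩
  simp only at h1 h2 h3 h4 h5
  refine ⟨τ, u, v, h1, h2, h3, ?_, fun τ' u' v' b1 b2 b3 => h4.trans (hp0' (τ', u', v') ⟨b1, b2, b3⟩)⟩
  refine lt_of_le_of_ne (hn _ _) fun hz => ?_
  have tv : τ v = v := (h3 v).2 (Or.inr rfl)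
  have tu : τ u = u := (h3 u).2 (Or.inl rfl)
  by_cases hw : a v = u
  · have b1 := hmin (ad τ u v) (ad_inv h1 tu tv) fun l hl => by
      rw [ad_fix h2, h3] at hl
      tauto
    rw [C_ad h0 hs h2 tu tv, hs u v, ← hw, ← hz] at b1
    have b2 := hp0' _ hT0
    simp only at b2
    rw [C_rm h0 hs ha (ha' l0)] at b2
    linarith
  · have w1 : τ (a v) ≠ a v := fun h => by
      rcases (h3 _).1 h with h | h
      exacts [hw h, ha' v h]
    have w2 : rm τ (a v) v = v := (rm_fix _ _).2 (Or.inl tv)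
    have w3 : rm τ (a v) (a v) = a v := (rm_fix _ _).2 (Or.inr (Or.inl rfl))
    have w4 : τ (a v) ≠ u := fun h => hw (by rw [← h1 (a v), h, tu])
    have w5 : τ (a v) ≠ v := fun h => ha' v (by rw [← h1 (a v), h, tv])
    have b1 := h5 (ad (rm τ (a v)) v (a v), u, τ (a v)) ⟨⟨ad_inv (rm_inv h1 _) w2 w3, w4.symm,
      fun l => by
        simp only [ad_fix (ha' v).symm, rm_fix, h3]
        have := ha' v
        grind⟩, by
        simp only
        rw [C_ad h0 hs (ha' v).symm w2 w3, C_rm h0 hs h1 w1, ← hz]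
        linarith [hn (a v) (τ (a v))]⟩
    refine absurd b1 (not_le.2 (Finset.card_lt_card ⟨fun l hl => ?_, fun h => ?_⟩))
    · simp only [Finset.mem_filter, Finset.mem_univ, true_and] at hl ⊢
      have := ha v
      have := ha l
      have := h1 l
      have := h1 (a v)
      unfold ad rm at hl
      grind
    · have := @h v (by simp [tv, (ha' v).symm])
      simp [ad] at this

theorem step {D : L → L → ℝ} (h0 : ∀ l, D l l = 0) (hs : ∀ l k, D l k = D k l)
    (hn : ∀ l k, 0 ≤ D l k) {a : L → L} (ha : Involutive a) (ha' : ∀ l, a l ≠ l)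
    (hmin : ∀ σ, Involutive σ → (∀ l, σ l ≠ l) → C D a ≤ C D σ) (hpos : ∃ l, 0 < D l (a l)) :
    ∃ v, 0 < D v (a v) ∧ ∀ ε > 0, (∀ l, D l v = 0 ∨ 2 * ε ≤ D l v) →
      ∀ σ, Involutive σ → (∀ l, σ l ≠ l) → C D a - 2 * ε ≤
        C (fun l k => min (D l k) (max (D l v - ε) 0 + max (D k v - ε) 0)) σ := by
  classical
  obtain ⟨τ, u, v, h1, h2, h3, h4, h5⟩ := best h0 hs hn ha ha' hmin hpos
  refine ⟨v, h4, fun ε hε hε' σ hσ hσ' => ?_⟩
  set ρ : L → ℝ := fun l => max (D l v - ε) 0 with hρ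
  have ρv : ρ v = 0 := by simp [hρ, h0, hε.le]
  have ρ0 : ∀ l, 0 ≤ ρ l := fun l => le_max_right _ _
  have ρ1 : ∀ l, D l v - ε ≤ ρ l := fun l => le_max_left _ _
  have tv : τ v = v := (h3 v).2 (Or.inr rfl)
  have Q : ∀ N (ν : L → L), (Finset.univ.filter fun l => ν l = l).card = N → Involutive ν →
      ν v = v → C D a - 2 * ε ≤ C D ν + 2 * ∑ l ∈ Finset.univ.filter fun l => ν l = l, ρ l := by
    intro N
    induction N using Nat.strong_induction_on with
    | _ N ih =>
    intro ν hN hν hv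
    obtain ⟨s, s1, s2, s3⟩ := exch h1 hν h2 h3 hv
    by_cases hx : ∃ x, ν x = x ∧ x ≠ v ∧ x ≠ s
    · obtain ⟨x, x1, x2, x3⟩ := hx
      obtain ⟨O, y, y1, y2, y3, y4, y5, y6, y7, y8, y9⟩ := s3 x x1 x2 x3
      let ν' : L → L := fun z => if O z then τ z else ν z
      let τ' : L → L := fun z => if O z then ν z else τ z
      have i1 : Involutive ν' := by
        intro z
        have := y5 z; have := y6 z; have := h1 z; have := hν z
        simp only [ν']; grind
      have i2 : Involutive τ' := by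
        intro z
        have := y5 z; have := y6 z; have := h1 z; have := hν z
        simp only [τ']; grind
      have c1 : C D ν' + C D τ' = C D ν + C D τ := by
        unfold C
        rw [← Finset.sum_add_distrib, ← Finset.sum_add_distrib]
        refine Finset.sum_congr rfl fun l _ => ?_
        simp only [ν', τ']
        split_ifs <;> ring
      have f1 : ∀ l, τ' l = l ↔ l = u ∨ l = v ∨ l = x ∨ l = y := by
        intro l
        have := h3 l; have := y9 l
        simp only [τ']; grind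
      have f2 : (Finset.univ.filter fun l => ν l = l) =
          insert x (insert y (Finset.univ.filter fun l => ν' l = l)) := by
        ext l
        have := h3 l; have := y9 l
        simp only [ν', Finset.mem_filter, Finset.mem_univ, true_and, Finset.mem_insert]; grind
      have f3 : y ∉ (Finset.univ.filter fun l => ν' l = l) := by
        have := h3 y
        simp only [ν', Finset.mem_filter, Finset.mem_univ, true_and]; grind
      have f4 : x ∉ insert y (Finset.univ.filter fun l => ν' l = l) := by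
        have := h3 x
        simp only [ν', Finset.mem_filter, Finset.mem_univ, true_and, Finset.mem_insert]; grind
      have vy : v ≠ y := fun h => y8 (h ▸ y3)
      have b1 := h5 (ad τ' v x) u y (ad_inv i2 ((f1 v).2 (by simp)) ((f1 x).2 (by simp)))
        (fun h => y7 (h ▸ y3)) fun l => by
          rw [ad_fix x2.symm, f1]; grind
      have b2 := h5 (ad τ' v y) u x (ad_inv i2 ((f1 v).2 (by simp)) ((f1 y).2 (by simp)))
        (fun h => y7 (h ▸ y2)) fun l => by
          rw [ad_fix vy, f1]; grind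
      rw [C_ad h0 hs x2.symm ((f1 v).2 (by simp)) ((f1 x).2 (by simp)), hs v] at b1
      rw [C_ad h0 hs vy ((f1 v).2 (by simp)) ((f1 y).2 (by simp)), hs v] at b2
      have b3 := ih _ (by rw [← hN, f2, Finset.card_insert_of_notMem f4,
        Finset.card_insert_of_notMem f3]; omega) ν' rfl i1 (by simp [ν', y8, hv])
      rw [f2, Finset.sum_insert f4, Finset.sum_insert f3]
      have r1 := ρ0 x; have r2 := ρ0 y; have r3 := ρ1 x; have r4 := ρ1 y
      rcases hε' x with e1 | e1 <;> rcases hε' y with e2 | e2 <;> linarith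
    · push Not at hx
      have b1 := hmin (ad ν v s) (ad_inv hν hv s2) fun l hl => by
        rw [ad_fix s1.symm] at hl
        exact hl.2.2 (hx l hl.1 hl.2.1)
      rw [C_ad h0 hs s1.symm hv s2, hs v] at b1
      have b2 : ρ s ≤ ∑ l ∈ Finset.univ.filter fun l => ν l = l, ρ l :=
        Finset.single_le_sum (fun l _ => ρ0 l) (by simpa using s2)
      linarith [ρ1 s]
  let ν : L → L := fun l => if ρ l + ρ (σ l) ≤ D l (σ l) then l else σ l
  have hsym : ∀ l, ρ (σ l) + ρ (σ (σ l)) ≤ D (σ l) (σ (σ l)) ↔ ρ l + ρ (σ l) ≤ D l (σ l) := by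
    intro l; rw [hσ l, hs (σ l) l, add_comm]
  have i1 : Involutive ν := by
    intro l
    have := hsym l; have := hσ l
    simp only [ν]; grind
  have f1 : (Finset.univ.filter fun l => ν l = l) =
      Finset.univ.filter fun l => ρ l + ρ (σ l) ≤ D l (σ l) := by
    ext l
    have := hσ' l
    simp only [ν, Finset.mem_filter, Finset.mem_univ, true_and]; grind
  have hv : ν v = v := by
    have : ρ v + ρ (σ v) ≤ D v (σ v) := by
      rw [ρv, zero_add, hs v]
      exact max_le (by linarith) (hn _ _)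
    simp [ν, this]
  refine (Q _ ν rfl i1 hv).trans (le_of_eq ?_)
  have e1 : ∑ l ∈ Finset.univ.filter (fun l => ρ l + ρ (σ l) ≤ D l (σ l)), ρ l =
      ∑ l ∈ Finset.univ.filter (fun l => ρ l + ρ (σ l) ≤ D l (σ l)), ρ (σ l) := by
    refine Finset.sum_nbij' σ σ ?_ ?_ (fun l _ => hσ l) (fun l _ => hσ l) fun l _ => by rw [hσ l]
    all_goals
      intro l hl
      simp only [Finset.mem_filter, Finset.mem_univ, true_and] at hl ⊢
      exact (hsym l).2 hl
  rw [f1, two_mul]
  nth_rewrite 2 [e1]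
  rw [← Finset.sum_add_distrib, Finset.sum_filter]
  unfold C
  rw [← Finset.sum_add_distrib]
  refine Finset.sum_congr rfl fun l _ => ?_
  simp only [ν]
  split_ifs with h
  · rw [h0, zero_add]; exact (min_eq_right h).symm
  · rw [add_zero]; exact (min_eq_left (not_le.1 h).le).symm

end Pool.Agent.H.MP_f46ce3_an
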