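import Mathlib
import Pool.Agent.H.MP_f46ce3_an.A

namespace Pool.Agent.H.MP_f46ce3_an

open Function Set

set_option maxHeartbeats 400000

theorem real1 {A B c ε : ℝ} (h1 : A ≤ c + B) (h2 : B ≤ c + A) :
    min c (max (A - ε) 0 + max (B - ε) 0) + |min A ε - min B ε| ≤ c := by
  have := min_le_left c (max (A - ε) 0 + max (B - ε) 0)
  have := min_le_right c (max (A - ε) 0 + max (B - ε) 0)
  rcases le_total A ε with a | a <;> rcases le_total B ε with b | b
  · rw [min_eq_left a, min_eq_left b, max_eq_right (by linarith), max_eq_right (by linarith)] at *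
    cases abs_cases (A - B) <;> linarith
  · rw [min_eq_left a, min_eq_right b, max_eq_right (by linarith), max_eq_left (by linarith)] at *
    cases abs_cases (A - ε) <;> linarith
  · rw [min_eq_right a, min_eq_left b, max_eq_left (by linarith), max_eq_right (by linarith)] at *
    cases abs_cases (ε - B) <;> linarith
  · rw [min_eq_right a, min_eq_right b, sub_self, abs_zero] at *
    linarith

def pt {I X : Type*} (x y : I → X) (l : I × Bool) : X := cond l.2 (x l.1) (y l.1)

def fl {I : Type*} (l : I × Bool) : I × Bool := (l.1, !l.2)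

theorem fl_inv {I : Type*} : Involutive (fl : I × Bool → I × Bool) := by
  rintro ⟨i, b⟩; simp [fl]

theorem fl_ne {I : Type*} (l : I × Bool) : fl l ≠ l := by
  obtain ⟨i, b⟩ := l; simp [fl]

theorem M1 {I X : Type*} [Fintype I] [DecidableEq I] (o : X) (x y : I → X) (d0 : X → X → ℝ)
    (h0 : ∀ u, d0 u u = 0) (hs : ∀ u w, d0 u w = d0 w u) (hn : ∀ u w, 0 ≤ d0 u w)
    (ht : ∀ u w z, d0 u z ≤ d0 u w + d0 w z)
    (hmin : ∀ σ, Involutive σ → (∀ l, σ l ≠ l) →
      C (fun l k => d0 (pt x y l) (pt x y k)) fl ≤ C (fun l k => d0 (pt x y l) (pt x y k)) σ) :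
    ∃ f : I → X → ℝ, (∀ i, f i o = 0) ∧ (∀ u w, ∑ i, |f i u - f i w| ≤ d0 u w) ∧
      ∀ i j, f i (x j) - f i (y j) = if i = j then d0 (x j) (y j) else 0 := by
  classical
  let S : Set ((X → X → ℝ) × (I → X → ℝ)) := {p | (∀ u w, p.1 u w = p.1 w u) ∧
    (∀ u w, 0 ≤ p.1 u w) ∧ (∀ u w z, p.1 u z ≤ p.1 u w + p.1 w z) ∧
    (∀ u w, p.1 u w + ∑ i, |p.2 i u - p.2 i w| ≤ d0 u w) ∧ (∀ i, p.2 i o = 0) ∧
    (∀ i j, p.2 i (x j) - p.2 i (y j) = if i = j then d0 (x j) (y j) - p.1 (x j) (y j) else 0) ∧
    ∀ σ, Involutive σ → (∀ l, σ l ≠ l) →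
      C (fun l k => p.1 (pt x y l) (pt x y k)) fl ≤ C (fun l k => p.1 (pt x y l) (pt x y k)) σ}
  have hC : ∀ σ : I × Bool → I × Bool, Continuous fun p : (X → X → ℝ) × (I → X → ℝ) =>
      C (fun l k => p.1 (pt x y l) (pt x y k)) σ := by
    intro σ; unfold C; fun_prop
  have hcl : IsClosed S := by
    simp only [S, Set.ofPred_and, Set.ofPred_forall]
    refine IsClosed.inter ?_ (IsClosed.inter ?_ (IsClosed.inter ?_ (IsClosed.inter ?_
      (IsClosed.inter ?_ (IsClosed.inter ?_ ?_)))))
    · exact isClosed_iInter fun _ => isClosed_iInter fun _ => isClosed_eq (by fun_prop) (by fun_prop)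
    · exact isClosed_iInter fun _ => isClosed_iInter fun _ => isClosed_le (by fun_prop) (by fun_prop)
    · exact isClosed_iInter fun _ => isClosed_iInter fun _ => isClosed_iInter fun _ =>
        isClosed_le (by fun_prop) (by fun_prop)
    · exact isClosed_iInter fun _ => isClosed_iInter fun _ => isClosed_le (by fun_prop) (by fun_prop)
    · exact isClosed_iInter fun _ => isClosed_eq (by fun_prop) (by fun_prop)
    · refine isClosed_iInter fun i => isClosed_iInter fun j => isClosed_eq (by fun_prop) ?_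
      split_ifs <;> fun_prop
    · exact isClosed_iInter fun _ => isClosed_iInter fun _ => isClosed_iInter fun _ =>
        isClosed_le (hC _) (hC _)
  have hsum : ∀ (f : I → X → ℝ) u w, 0 ≤ ∑ i, |f i u - f i w| :=
    fun f u w => Finset.sum_nonneg fun _ _ => abs_nonneg _
  have hcp : IsCompact S := by
    refine ((isCompact_univ_pi fun u => isCompact_univ_pi fun w =>
      isCompact_Icc (a := 0) (b := d0 u w)).prod (isCompact_univ_pi fun i => isCompact_univ_pi
        fun u => isCompact_Icc (a := -d0 u o) (b := d0 u o))).of_isClosed_subset hcl ?_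
    rintro ⟨d, f⟩ ⟨-, a2, -, a4, a5, -⟩
    refine ⟨fun u _ w _ => ⟨a2 u w, by linarith [a4 u w, hsum f u w]⟩, fun i _ u _ => abs_le.1 ?_⟩
    have := Finset.single_le_sum (f := fun i => |f i u - f i o|) (fun _ _ => abs_nonneg _)
      (Finset.mem_univ i)
    simp only at a2 a4 a5 ⊢
    rw [a5 i, sub_zero] at this
    linarith [a4 u o, a2 u o]
  obtain ⟨⟨d, f⟩, ⟨a1, a2, a3, a4, a5, a6, a7⟩, hm⟩ := hcp.exists_isMinOn
    ⟨(d0, 0), hs, hn, ht, by simp, by simp, by simp, hmin⟩ (hC fl).continuousOn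
  simp only at a1 a2 a3 a4 a5 a6 a7
  have a0 : ∀ u, d u u = 0 := fun u => le_antisymm (by simpa [h0] using a4 u u) (a2 u u)
  by_cases hpos : ∃ l, 0 < d (pt x y l) (pt x y (fl l))
  swap
  · push Not at hpos
    refine ⟨f, a5, fun u w => by linarith [a4 u w, a2 u w], fun i j => ?_⟩
    have : d (x j) (y j) = 0 := le_antisymm (hpos (j, true)) (a2 _ _)
    rw [a6, this, sub_zero]
  exfalso
  obtain ⟨v, v1, v2⟩ := step (D := fun l k => d (pt x y l) (pt x y k)) (fun _ => a0 _)
    (fun _ _ => a1 _ _) (fun _ _ => a2 _ _) fl_inv fl_ne a7 hpos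
  obtain ⟨l0, l1, l2⟩ := Finset.exists_min_image
    (Finset.univ.filter fun l => 0 < d (pt x y l) (pt x y v)) (fun l => d (pt x y l) (pt x y v))
    ⟨fl v, by simpa [a1 (pt x y (fl v))] using v1⟩
  simp only [Finset.mem_filter, Finset.mem_univ, true_and] at l1 l2
  set ε := d (pt x y l0) (pt x y v) / 2 with hε
  have ε0 : 0 < ε := half_pos l1
  have ε1 : ∀ l, d (pt x y l) (pt x y v) = 0 ∨ 2 * ε ≤ d (pt x y l) (pt x y v) := fun l =>
    (a2 (pt x y l) (pt x y v)).eq_or_lt.imp Eq.symm fun h => by linarith [l2 l h]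
  have v3 := v2 ε ε0 ε1
  set ρ : X → ℝ := fun u => max (d u (pt x y v) - ε) 0 with hρ
  set φ : X → ℝ := fun u => min (d u (pt x y v)) ε with hφ
  set d' : X → X → ℝ := fun u w => min (d u w) (ρ u + ρ w) with hd'
  have v4 : ∀ σ, Involutive σ → (∀ l, σ l ≠ l) →
      C (fun l k => d (pt x y l) (pt x y k)) fl - 2 * ε ≤
        C (fun l k => d' (pt x y l) (pt x y k)) σ := v3
  have ρ0 : ∀ u, 0 ≤ ρ u := fun u => le_max_right _ _
  have ρ1 : ∀ u w, ρ u ≤ d u w + ρ w := fun u w =>
    max_le (by linarith [a3 u w (pt x y v), le_max_left (d w (pt x y v) - ε) 0])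
      (add_nonneg (a2 _ _) (ρ0 _))
  have b1 : ∀ u w, d' u w = d' w u := fun u w => by simp only [hd', a1 u w, add_comm]
  have b2 : ∀ u w, d' u w + |φ u - φ w| ≤ d u w := fun u w =>
    real1 (a3 _ _ _) (by linarith [a3 w u (pt x y v), a1 u w])
  have b3 : 2 * ε ≤ d (pt x y (fl v)) (pt x y v) :=
    (ε1 _).resolve_left (by rw [a1]; exact v1.ne')
  have ρv : ρ (pt x y v) = 0 := by simp [hρ, a0, ε0.le]
  have φv : φ (pt x y v) = 0 := by simp [hφ, a0, ε0.le]
  have φw : φ (pt x y (fl v)) = ε := min_eq_right (by linarith)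
  have b4 : d' (pt x y (fl v)) (pt x y v) = d (pt x y (fl v)) (pt x y v) - ε := by
    have : ρ (pt x y (fl v)) = d (pt x y (fl v)) (pt x y v) - ε := max_eq_left (by linarith)
    simp only [hd', ρv, this, add_zero]
    exact min_eq_right (by linarith)
  set t : I × Bool → ℝ := fun l => d (pt x y l) (pt x y (fl l)) - d' (pt x y l) (pt x y (fl l))
    with htd
  have t0 : ∀ l, 0 ≤ t l := fun l => sub_nonneg.2 (min_le_left _ _)
  have t1 : t v = ε := by simp only [htd]; rw [a1, b1, b4]; ring
  have t2 : t (fl v) = ε := by simp only [htd]; rw [fl_inv v, b4]; ring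
  have t3 : ∑ l, t l = C (fun l k => d (pt x y l) (pt x y k)) fl -
      C (fun l k => d' (pt x y l) (pt x y k)) fl := Finset.sum_sub_distrib _ _
  have t4 : 2 * ε ≤ ∑ l, t l := by
    have := Finset.sum_le_sum_of_subset_of_nonneg (Finset.subset_univ {v, fl v}) fun l _ _ => t0 l
    rw [Finset.sum_pair (fl_ne v).symm] at this
    linarith
  have t5 : ∀ j, j ≠ v.1 → t (j, true) = 0 := by
    intro j hj
    have := Finset.sum_le_sum_of_subset_of_nonneg (Finset.subset_univ {(j, true), v, fl v})
      fun l _ _ => t0 l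
    rw [Finset.sum_insert, Finset.sum_pair (fl_ne v).symm] at this
    · linarith [v4 fl fl_inv fl_ne, t0 (j, true)]
    · simp only [Finset.mem_insert, Finset.mem_singleton, not_or]
      exact ⟨fun h => hj (congrArg Prod.fst h), fun h => hj (congrArg Prod.fst h)⟩
  set sg : ℝ := cond v.2 (-1) 1 with hsg
  have sg1 : |sg| = 1 := by rw [hsg]; cases v.2 <;> simp
  have sg2 : sg * (φ (x v.1) - φ (y v.1)) = d (x v.1) (y v.1) - d' (x v.1) (y v.1) := by
    obtain ⟨i, _ | _⟩ := v
    · have e1 : φ (y i) = 0 := φv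
      have e2 : φ (x i) = ε := φw
      have e3 : d' (x i) (y i) = d (x i) (y i) - ε := b4
      simp only [hsg, e1, e2, e3, cond_false]; ring
    · have e1 : φ (x i) = 0 := φv
      have e2 : φ (y i) = ε := φw
      have e3 : d' (y i) (x i) = d (y i) (x i) - ε := b4
      simp only [hsg, e1, e2, b1 (x i), e3, a1 (x i), cond_true]; ring
  have hmem : (d', fun i u => f i u + if i = v.1 then sg * (φ u - φ o) else 0) ∈ S := by
    refine ⟨b1, fun u w => le_min (a2 _ _) (add_nonneg (ρ0 _) (ρ0 _)), fun u w z => ?_,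
      fun u w => ?_, fun i => by simp [a5], fun i j => ?_, fun σ s1 s2 => ?_⟩
    · have c1 := min_le_left (d u z) (ρ u + ρ z)
      have c2 := min_le_right (d u z) (ρ u + ρ z)
      have c3 := a3 u w z
      have c4 := ρ1 u w
      have c5 := ρ1 z w
      have c6 := a1 w z
      have c7 := ρ0 w
      show min (d u z) (ρ u + ρ z) ≤ min (d u w) (ρ u + ρ w) + min (d w z) (ρ w + ρ z)
      rcases min_choice (d u w) (ρ u + ρ w) with e1 | e1 <;>
        rcases min_choice (d w z) (ρ w + ρ z) with e2 | e2 <;> rw [e1, e2] <;> linarith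
    · have c1 : ∑ i, |(f i u + if i = v.1 then sg * (φ u - φ o) else 0) -
          (f i w + if i = v.1 then sg * (φ w - φ o) else 0)| ≤
          ∑ i, (|f i u - f i w| + if i = v.1 then |φ u - φ w| else 0) := by
        refine Finset.sum_le_sum fun i _ => ?_
        split_ifs
        · have : f i u + sg * (φ u - φ o) - (f i w + sg * (φ w - φ o)) =
            (f i u - f i w) + sg * (φ u - φ w) := by ring
          rw [this]
          refine (abs_add_le _ _).trans (le_of_eq ?_)
          rw [abs_mul, sg1, one_mul]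
        · simp
      rw [Finset.sum_add_distrib, Finset.sum_ite_eq' Finset.univ v.1] at c1
      simp only [Finset.mem_univ, if_true] at c1
      simp only
      linarith [a4 u w, b2 u w]
    · have c1 := a6 i j
      simp only
      by_cases hj : j = v.1
      · subst hj
        split_ifs at c1 ⊢ <;> linarith
      · have c2 : d (x j) (y j) - d' (x j) (y j) = 0 := t5 j hj
        have c3 : φ (x j) = φ (y j) := by
          have := b2 (x j) (y j)
          exact sub_eq_zero.1 (abs_nonpos_iff.1 (by linarith))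
        rw [c3]
        split_ifs at c1 ⊢ <;> linarith
    · simp only
      linarith [v4 σ s1 s2]
  have := hm hmem
  simp only [mem_ofPred_eq] at this
  linarith

end Pool.Agent.H.MP_f46ce3_an
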