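import Mathlib
import Pool.Agent.H.MP_f46ce3_an.B

namespace Pool.Agent.H.MP_f46ce3_an

open Function Set

set_option maxHeartbeats 400000

theorem fin_case {I X : Type*} [Fintype I] [DecidableEq I] [MetricSpace X] (o : X) (x y : I → X)
    (K : ℝ) (hK : 0 ≤ K) (h : ∀ α : I → ℝ, (∀ i, |α i| ≤ 1) → ∃ g : X → ℝ,
      (∀ u w, |g u - g w| ≤ K * dist u w) ∧ ∀ i, g (x i) - g (y i) = α i * dist (x i) (y i)) :
    ∃ f : I → X → ℝ, (∀ i, f i o = 0) ∧ (∀ u w, ∑ i, |f i u - f i w| ≤ K * dist u w) ∧
      ∀ i j, f i (x j) - f i (y j) = if i = j then dist (x j) (y j) else 0 := by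
  let G := {g : X → ℝ // (∀ u w, |g u - g w| ≤ K * dist u w) ∧
    ∀ j, |g (x j) - g (y j)| ≤ dist (x j) (y j)}
  have : Nonempty G := ⟨⟨0, fun u w => by simpa using mul_nonneg hK dist_nonneg, by simp⟩⟩
  let d0 : X → X → ℝ := fun u w => ⨆ g : G, |g.1 u - g.1 w|
  have hle : ∀ (g : G) u w, |g.1 u - g.1 w| ≤ d0 u w := fun g u w =>
    le_ciSup (f := fun g : G => |g.1 u - g.1 w|)
      ⟨K * dist u w, by rintro _ ⟨g, rfl⟩; exact g.2.1 u w⟩ g
  have hG : ∀ α : I → ℝ, (∀ i, |α i| ≤ 1) →
      ∃ g : G, ∀ i, g.1 (x i) - g.1 (y i) = α i * dist (x i) (y i) := by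
    intro α hα
    obtain ⟨g, g1, g2⟩ := h α hα
    refine ⟨⟨g, g1, fun j => ?_⟩, g2⟩
    rw [g2, abs_mul, abs_dist]
    exact mul_le_of_le_one_left dist_nonneg (hα j)
  have hd : ∀ j, d0 (x j) (y j) = dist (x j) (y j) := by
    intro j
    refine le_antisymm (ciSup_le fun g => g.2.2 j) ?_
    obtain ⟨g, hg⟩ := hG (fun _ => 1) (by simp)
    have := hle g (x j) (y j)
    rwa [hg, one_mul, abs_dist] at this
  have hs : ∀ u w, d0 u w = d0 w u := fun u w => by simp only [d0, abs_sub_comm]
  obtain ⟨f, f1, f2, f3⟩ := M1 o x y d0 (fun u => by simp [d0]) hs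
    (fun u w => Real.iSup_nonneg fun _ => abs_nonneg _)
    (fun u w z => ciSup_le fun g => (abs_sub_le _ _ _).trans (add_le_add (hle g _ _) (hle g _ _)))
    (by
      intro σ s1 s2
      obtain ⟨s, hs'⟩ := colour fl_inv s1 fl_ne s2
      obtain ⟨g, hg⟩ := hG (fun i => s (i, true)) fun i => (hs' _).1.le
      have key : ∀ b : I × Bool → I × Bool, Involutive b → (∀ l, s (b l) = -s l) →
          ∑ l, s l * (g.1 (pt x y l) - g.1 (pt x y (b l))) = 2 * ∑ l, s l * g.1 (pt x y l) := by
        intro b hb hb'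
        have := Equiv.sum_comp (hb.toPerm b) fun l => s l * g.1 (pt x y (b l))
        simp only [Involutive.coe_toPerm, hb', hb _, neg_mul, Finset.sum_neg_distrib] at this
        simp only [mul_sub, Finset.sum_sub_distrib]
        linarith
      have e1 := key fl fl_inv fun l => (hs' l).2.1
      have e2 := key σ s1 fun l => (hs' l).2.2
      unfold C
      calc ∑ l, d0 (pt x y l) (pt x y (fl l))
          = ∑ l, s l * (g.1 (pt x y l) - g.1 (pt x y (fl l))) := by
            refine Finset.sum_congr rfl ?_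
            rintro ⟨j, b⟩ _
            have a1 : s (j, true) * s (j, true) = 1 := by
              rw [← abs_mul_abs_self, (hs' _).1, one_mul]
            have a2 : s (j, false) = -s (j, true) := (hs' (j, true)).2.1
            have a3 := hg j
            cases b
            · show d0 (y j) (x j) = s (j, false) * (g.1 (y j) - g.1 (x j))
              rw [hs, hd, a2]
              linear_combination (-s (j, true)) * a3 - dist (x j) (y j) * a1
            · show d0 (x j) (y j) = s (j, true) * (g.1 (x j) - g.1 (y j))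
              rw [hd]
              linear_combination (-s (j, true)) * a3 - dist (x j) (y j) * a1
        _ = ∑ l, s l * (g.1 (pt x y l) - g.1 (pt x y (σ l))) := by rw [e1, e2]
        _ ≤ _ := Finset.sum_le_sum fun l _ => by
            refine (le_abs_self _).trans ?_
            rw [abs_mul, (hs' l).1, one_mul]
            exact hle g _ _)
  exact ⟨f, f1, fun u w => (f2 u w).trans (ciSup_le fun g => g.2.1 u w),
    fun i j => by rw [f3, hd]⟩

theorem gen {I X : Type*} [DecidableEq I] [MetricSpace X] (o : X) (x y : I → X) (𝒦 : Set ℝ)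
    (hne : 𝒦.Nonempty) (hK : ∀ K ∈ 𝒦, 0 ≤ K ∧ ∀ α : I → ℝ, (∀ i, |α i| ≤ 1) → ∃ g : X → ℝ,
      (∀ u w, |g u - g w| ≤ K * dist u w) ∧ ∀ i, g (x i) - g (y i) = α i * dist (x i) (y i)) :
    ∃ f : I → X → ℝ, (∀ i, f i o = 0) ∧
      (∀ K ∈ 𝒦, ∀ (S : Finset I) u w, ∑ i ∈ S, |f i u - f i w| ≤ K * dist u w) ∧
      ∀ i j, f i (x j) - f i (y j) = if i = j then dist (x j) (y j) else 0 := by
  let Z : Finset I × 𝒦 → Set (I → X → ℝ) := fun p => {f | (∀ i, f i o = 0) ∧
    (∀ (S : Finset I) u w, ∑ i ∈ S, |f i u - f i w| ≤ p.2.1 * dist u w) ∧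
    ∀ i, ∀ j ∈ p.1, f i (x j) - f i (y j) = if i = j then dist (x j) (y j) else 0}
  have := hne.to_subtype
  have hcl : ∀ p, IsClosed (Z p) := by
    intro p
    simp only [Z, Set.ofPred_and, Set.ofPred_forall]
    refine IsClosed.inter ?_ (IsClosed.inter ?_ ?_)
    · exact isClosed_iInter fun _ => isClosed_eq (by fun_prop) (by fun_prop)
    · exact isClosed_iInter fun _ => isClosed_iInter fun _ => isClosed_iInter fun _ =>
        isClosed_le (by fun_prop) (by fun_prop)
    · exact isClosed_iInter fun _ => isClosed_iInter fun _ => isClosed_iInter fun _ =>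
        isClosed_eq (by fun_prop) (by fun_prop)
  obtain ⟨f, hf⟩ := IsCompact.nonempty_iInter_of_directed_nonempty_isCompact_isClosed Z
    (by
      rintro ⟨J, K⟩ ⟨J', K'⟩
      refine ⟨(J ∪ J', min K K'), fun f hf => ⟨hf.1, fun S u w => (hf.2.1 S u w).trans ?_,
        fun i j hj => hf.2.2 i j (Finset.mem_union_left _ hj)⟩, fun f hf => ⟨hf.1,
        fun S u w => (hf.2.1 S u w).trans ?_, fun i j hj => hf.2.2 i j (Finset.mem_union_right _ hj)⟩⟩
      · exact mul_le_mul_of_nonneg_right (Subtype.coe_le_coe.2 (min_le_left K K')) dist_nonneg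
      · exact mul_le_mul_of_nonneg_right (Subtype.coe_le_coe.2 (min_le_right K K')) dist_nonneg)
    (by
      rintro ⟨J, K, hK'⟩
      obtain ⟨f, f1, f2, f3⟩ := fin_case (I := J) o (fun i => x i) (fun i => y i) K (hK K hK').1
        fun α hα => by
          obtain ⟨g, g1, g2⟩ := (hK K hK').2 (fun i => if h : i ∈ J then α ⟨i, h⟩ else 0)
            fun i => by split_ifs <;> simp [hα]
          exact ⟨g, g1, fun i => by simpa using g2 i⟩
      refine ⟨fun i => if h : i ∈ J then f ⟨i, h⟩ else 0, fun i => ?_, fun S u w => ?_,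
        fun i j hj => ?_⟩
      · simp only
        split_ifs <;> simp [f1]
      · refine le_trans ?_ (f2 u w)
        set F : I → ℝ := fun i => |(if h : i ∈ J then f ⟨i, h⟩ else 0) u -
          (if h : i ∈ J then f ⟨i, h⟩ else 0) w| with hF
        have e1 : ∑ i : J, |f i u - f i w| = ∑ i ∈ J, F i := by
          rw [← Finset.sum_coe_sort J F]
          exact Finset.sum_congr rfl fun i _ => by simp [hF]
        rw [e1]
        calc ∑ i ∈ S, F i = ∑ i ∈ S ∩ J, F i := by
              refine (Finset.sum_subset Finset.inter_subset_left fun i h1 h2 => ?_).symm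
              have : i ∉ J := fun h => h2 (Finset.mem_inter.2 ⟨h1, h⟩)
              simp [hF, this]
          _ ≤ _ := Finset.sum_le_sum_of_subset_of_nonneg Finset.inter_subset_right
              fun _ _ _ => abs_nonneg _
      · by_cases hi : i ∈ J
        · simpa [hi] using f3 ⟨i, hi⟩ ⟨j, hj⟩
        · have : i ≠ j := fun h => hi (h ▸ hj)
          simp [hi, this])
    (by
      intro p
      refine (isCompact_univ_pi fun i => isCompact_univ_pi fun u =>
        isCompact_Icc (a := -(p.2.1 * dist u o)) (b := p.2.1 * dist u o)).of_isClosed_subset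
        (hcl p) fun f hf i _ u _ => abs_le.1 ?_
      simpa [hf.1] using hf.2.1 {i} u o) hcl
  rw [mem_iInter] at hf
  obtain ⟨K0, hK0⟩ := hne
  exact ⟨f, (hf (∅, ⟨K0, hK0⟩)).1, fun K h => (hf (∅, ⟨K, h⟩)).2.1,
    fun i j => (hf ({j}, ⟨K0, hK0⟩)).2.2 i j (Finset.mem_singleton_self j)⟩

end Pool.Agent.H.MP_f46ce3_an
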